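import Mathlib

/-!
# Project KS3: greedy colouring along a rank function
-/

set_option autoImplicit false
open Classical

namespace Pool.Agent.Helper7.KS3

theorem greedy {V : Type} [Fintype V] (P : V → Finset V) (r : V → ℕ)
    (hr : ∀ v, ∀ u ∈ P v, r u < r v) (c : ℕ) (hc : ∀ v, (P v).card < c) :
    ∃ φ : V → Fin c, ∀ v, ∀ u ∈ P v, φ u ≠ φ v := by
  have key : ∀ N : ℕ, ∃ φ : V → Fin c, ∀ v, r v < N → ∀ u ∈ P v, φ u ≠ φ v := by
    intro N
    induction N with
    | zero => exact ⟨fun v => ⟨0, (Nat.zero_le _).trans_lt (hc v)⟩, fun v hv => absurd hv (by omega)⟩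
    | succ N ih =>
      obtain ⟨φ, hφ⟩ := ih
      have hex : ∀ v, ∃ x : Fin c, x ∉ (P v).image φ := by
        intro v
        by_contra hcon
        push Not at hcon
        have h1 : (Finset.univ : Finset (Fin c)) ⊆ (P v).image φ := fun x _ => hcon x
        have h2 := Finset.card_le_card h1
        rw [Finset.card_univ, Fintype.card_fin] at h2
        have h3 := h2.trans Finset.card_image_le
        have := hc v
        omega
      choose f hf using hex
      refine ⟨fun v => if r v = N then f v else φ v, ?_⟩
      intro v hv u hu
      have hru := hr v u hu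
      have hu' : r u ≠ N := by omega
      show (if r u = N then f u else φ u) ≠ (if r v = N then f v else φ v)
      rw [if_neg hu']
      by_cases hvN : r v = N
      · rw [if_pos hvN]
        intro h
        apply hf v
        rw [← h]
        exact Finset.mem_image_of_mem _ hu
      · rw [if_neg hvN]
        exact hφ v (by omega) u hu
  obtain ⟨φ, hφ⟩ := key (Finset.univ.sup r + 1)
  refine ⟨φ, fun v u hu => hφ v ?_ u hu⟩
  have := Finset.le_sup (f := r) (Finset.mem_univ v)
  omega

end Pool.Agent.Helper7.KS3
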