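import Pool.Agent.Helper7.KS3.Goals2

/-!
# Project KS3: the classes (version with a whole level per step)
-/

set_option autoImplicit false
open Classical

namespace Pool.Agent.Helper7.KS3

theorem s_clt (h1 : S_LEV) (h2 : S_REC) (h3 : S_STQ) : S_CLT := by
  intro V _ q d m g t K PF PD rk hq hd hm hg hmg hK hirr hrk hPF hPD hcond
  obtain ⟨θ, hl1, hl2, hl3⟩ := h1 V d m g PF PD hd hmg hPF hPD
  obtain ⟨Λ, hΛ⟩ : ∃ Λ, Λ = 3 * (q + 1) := ⟨_, rfl⟩
  obtain ⟨a, ha⟩ : ∃ a, a = 9 * d * (q + 1) := ⟨_, rfl⟩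
  obtain ⟨b, hb⟩ : ∃ b, b = 9 * d * q := ⟨_, rfl⟩
  have hΛ0 : 0 < Λ := by omega
  have ha0 : 1 ≤ a := by rw [ha]; exact Nat.mul_pos (by omega) (by omega)
  have hb0 : 1 ≤ b := by rw [hb]; exact Nat.mul_pos (by omega) (by omega)
  have hab : a = 9 * d + b := by rw [ha, hb]; ring
  have hK0 : 1 ≤ K := by rw [hK]; exact Nat.mul_pos (by positivity) hd
  obtain ⟨h, hh⟩ : ∃ h : V → ℕ, ∀ v, h v = θ v / g := ⟨fun v => θ v / g, fun _ => rfl⟩
  have hh1 : ∀ v, ∀ u ∈ PD v, h u ≤ h v + 1 := by
    intro v u hu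
    rw [hh, hh]
    have := hl1 v u hu
    calc θ u / g ≤ (θ v + g) / g := Nat.div_le_div_right this
      _ = θ v / g + 1 := Nat.add_div_right _ hg
  obtain ⟨A, hA1, hA2, hA3⟩ := h2 V q a m K Λ PD rk h hq ha0 (by rw [hK, ha]; ring) hΛ hrk hPD hh1
  obtain ⟨B, hB⟩ : ∃ B, B = g * Λ := ⟨_, rfl⟩
  have hB0 : 0 < B := by rw [hB]; exact Nat.mul_pos hg hΛ0
  have hσ : ∀ v, h v / Λ = θ v / B := by
    intro v
    rw [hh, hB, ← Nat.div_div_eq_div_mul]
  obtain ⟨F, hF⟩ : ∃ F : SimpleGraph V, ∀ u w, F.Adj u w ↔ (u ∈ PF w ∨ w ∈ PF u) := by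
    refine ⟨SimpleGraph.fromRel (fun u w => u ∈ PF w), fun u w => ?_⟩
    rw [SimpleGraph.fromRel_adj]
    constructor
    · exact fun h => h.2
    · intro h
      refine ⟨?_, h⟩
      rintro rfl
      exact hirr u (h.elim id id)
  have hσlt : ∀ u v, h u / Λ < h v / Λ → θ u < θ v := by
    intro u v huv
    rw [hσ, hσ] at huv
    by_contra hcon
    have := Nat.div_le_div_right (c := B) (not_lt.1 hcon)
    omega
  have key : ∀ τ : ℕ, ∃ κ : V → Fin K,
      (∀ v, θ v < τ → κ v ∈ A κ v) ∧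
      (∀ v, ∀ u ∈ PF v, θ u < τ → θ v < τ → κ u ≠ κ v) ∧
      (∀ τ' < τ, ∀ v, h v / Λ ≤ τ' / B + 1 → ∀ j : Fin K,
        q * b * ((PD v).filter (fun u => θ u = τ' ∧ κ u = j)).card ≤
          (q + 1) * ((PD v).filter (fun u => θ u = τ' ∧ j ∈ A κ u)).card + q * b * t) := by
    intro τ
    induction τ with
    | zero =>
      exact ⟨fun _ => ⟨0, hK0⟩, fun v hv => absurd hv (by omega),
        fun v u _ hv => absurd hv (by omega), fun τ' hτ' => absurd hτ' (by omega)⟩
    | succ τ ih =>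
      obtain ⟨κ, k1, k2, k3⟩ := ih
      obtain ⟨T, hT⟩ : ∃ T : Finset V, ∀ u, u ∈ T ↔ θ u = τ :=
        ⟨Finset.univ.filter (fun u => θ u = τ), fun u => by simp⟩
      obtain ⟨R, hR⟩ : ∃ R : Finset V, ∀ v, v ∈ R ↔ h v / Λ ≤ τ / B + 1 :=
        ⟨Finset.univ.filter (fun v => h v / Λ ≤ τ / B + 1), fun u => by simp⟩
      obtain ⟨NF, hNF⟩ : ∃ NF : V → Finset V, ∀ u u', u' ∈ NF u ↔
          ((u' ∈ PF u ∨ u ∈ PF u') ∧ θ u' < τ) :=
        ⟨fun u => Finset.univ.filter (fun u' => (u' ∈ PF u ∨ u ∈ PF u') ∧ θ u' < τ),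
          fun u u' => by simp⟩
      have hNFc : ∀ u ∈ T, (NF u).card + (T.filter (fun w => F.Adj u w)).card ≤ 9 * d := by
        intro u hu
        have hsub : NF u ∪ T.filter (fun w => F.Adj u w) ⊆
            PF u ∪ Finset.univ.filter (fun c => u ∈ PF c ∧ θ c ≤ θ u) := by
          intro u' hu'
          rw [Finset.mem_union, hNF, Finset.mem_filter, hF, hT] at hu'
          rw [Finset.mem_union, Finset.mem_filter, (hT u).1 hu]
          rcases hu' with ⟨h | h, h'⟩ | ⟨h', h | h⟩
          · exact Or.inl h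
          · exact Or.inr ⟨Finset.mem_univ _, h, h'.le⟩
          · exact Or.inr ⟨Finset.mem_univ _, h, h'.le⟩
          · exact Or.inl h
        have hdis : Disjoint (NF u) (T.filter (fun w => F.Adj u w)) := by
          rw [Finset.disjoint_left]
          intro x hx hx'
          rw [hNF] at hx
          rw [Finset.mem_filter, hT] at hx'
          omega
        have h1 := (Finset.card_le_card hsub).trans (Finset.card_union_le _ _)
        rw [Finset.card_union_of_disjoint hdis] at h1
        have h2 := hPF u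
        have h3 := hl2 u
        omega
      obtain ⟨A', hA'⟩ : ∃ A' : V → Finset (Fin K), ∀ u, A' u = A κ u \ (NF u).image κ :=
        ⟨_, fun _ => rfl⟩
      have hA'b : ∀ u ∈ T, b + (T.filter (fun w => F.Adj u w)).card ≤ (A' u).card := by
        intro u hu
        rw [hA']
        have h1 := Finset.le_card_sdiff ((NF u).image κ) (A κ u)
        have h2 : ((NF u).image κ).card ≤ (NF u).card := Finset.card_image_le
        have h3 := hNFc u hu
        rw [hA1] at h1
        omega
      have hN : ∀ u ∈ T, (R.filter (fun v => u ∈ PD v)).card ≤ 2 ^ (g + 6 * (q + 1) * g + 1) := by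
        intro u hu
        refine le_trans (Finset.card_le_card ?_) (hl3 u (6 * (q + 1) * g))
        intro c hc
        rw [Finset.mem_filter] at hc ⊢
        refine ⟨Finset.mem_univ _, hc.2, ?_⟩
        have h1 := (hR c).1 hc.1
        rw [← (hT u).1 hu, ← hσ, hh, hh, Nat.div_div_eq_div_mul, Nat.div_div_eq_div_mul] at h1
        have h2 : 0 < g * Λ := Nat.mul_pos hg hΛ0
        have h3 := Nat.lt_div_mul_add (a := θ c) h2
        have h4 := Nat.div_mul_le_self (θ u) (g * Λ)
        have h5 : θ c / (g * Λ) * (g * Λ) ≤ (θ u / (g * Λ) + 1) * (g * Λ) :=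
          Nat.mul_le_mul_right _ h1
        have h6 : 6 * (q + 1) * g = 2 * (g * Λ) := by rw [hΛ]; ring
        rw [h6]
        have h7 : (θ u / (g * Λ) + 1) * (g * Λ) = θ u / (g * Λ) * (g * Λ) + g * Λ := by ring
        omega
      obtain ⟨κ₁, l1, lF, l2⟩ := h3 V q b m K (2 ^ (g + 6 * (q + 1) * g + 1)) t PD T R A' F hq hb0 hm hK0
        Nat.one_le_two_pow hPD hA'b hN hcond
      obtain ⟨κ', hκ'⟩ : ∃ κ' : V → Fin K, ∀ v, κ' v = if θ v = τ then κ₁ v else κ v :=
        ⟨fun v => if θ v = τ then κ₁ v else κ v, fun _ => rfl⟩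
      have e1 : ∀ v, θ v < τ → κ' v = κ v := fun v hv => by rw [hκ', if_neg (by omega)]
      have e2 : ∀ v, θ v = τ → κ' v = κ₁ v := fun v hv => by rw [hκ', if_pos hv]
      have e3 : ∀ v, θ v ≤ τ → A κ' v = A κ v := by
        intro v hv
        apply hA3
        intro u hu
        exact e1 u ((hσlt u v hu).trans_le hv)
      refine ⟨κ', ?_, ?_, ?_⟩
      · intro v hv
        rw [e3 v (by omega)]
        rcases Nat.lt_succ_iff_lt_or_eq.1 hv with h | h
        · rw [e1 v h]; exact k1 v h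
        · rw [e2 v h]
          have := l1 v ((hT v).2 h)
          rw [hA'] at this
          exact (Finset.mem_sdiff.1 this).1
      · intro v u hu huτ hvτ
        rcases Nat.lt_succ_iff_lt_or_eq.1 huτ with h | h <;>
          rcases Nat.lt_succ_iff_lt_or_eq.1 hvτ with h' | h'
        · rw [e1 u h, e1 v h']; exact k2 v u hu h h'
        · rw [e1 u h, e2 v h']
          intro heq
          have := l1 v ((hT v).2 h')
          rw [hA', ← heq] at this
          exact (Finset.mem_sdiff.1 this).2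
            (Finset.mem_image_of_mem _ ((hNF v u).2 ⟨Or.inl hu, h⟩))
        · rw [e2 u h, e1 v h']
          intro heq
          have := l1 u ((hT u).2 h)
          rw [hA', heq] at this
          exact (Finset.mem_sdiff.1 this).2
            (Finset.mem_image_of_mem _ ((hNF u v).2 ⟨Or.inr hu, h'⟩))
        · rw [e2 u h, e2 v h']
          exact lF u ((hT u).2 h) v ((hT v).2 h') ((hF u v).2 (Or.inl hu))
      · intro τ' hτ' v hv j
        rcases Nat.lt_succ_iff_lt_or_eq.1 hτ' with h | h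
        · have f1 : (PD v).filter (fun u => θ u = τ' ∧ κ' u = j) =
              (PD v).filter (fun u => θ u = τ' ∧ κ u = j) := by
            apply Finset.filter_congr
            intro u _
            constructor
            · rintro ⟨x, y⟩; exact ⟨x, by rw [← e1 u (by omega)]; exact y⟩
            · rintro ⟨x, y⟩; exact ⟨x, by rw [e1 u (by omega)]; exact y⟩
          have f2 : (PD v).filter (fun u => θ u = τ' ∧ j ∈ A κ' u) =
              (PD v).filter (fun u => θ u = τ' ∧ j ∈ A κ u) := by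
            apply Finset.filter_congr
            intro u _
            constructor
            · rintro ⟨x, y⟩; exact ⟨x, by rw [← e3 u (by omega)]; exact y⟩
            · rintro ⟨x, y⟩; exact ⟨x, by rw [e3 u (by omega)]; exact y⟩
          rw [f1, f2]
          exact k3 τ' h v hv j
        · subst h
          have f0 := l2 v ((hR v).2 hv) j
          have f1 : (PD v).filter (fun u => θ u = τ' ∧ κ' u = j) =
              (PD v).filter (fun u => u ∈ T ∧ κ₁ u = j) := by
            apply Finset.filter_congr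
            intro u _
            constructor
            · rintro ⟨x, y⟩; exact ⟨(hT u).2 x, by rw [← e2 u x]; exact y⟩
            · rintro ⟨x, y⟩; exact ⟨(hT u).1 x, by rw [e2 u ((hT u).1 x)]; exact y⟩
          have f2 : ((PD v).filter (fun u => u ∈ T ∧ j ∈ A' u)).card ≤
              ((PD v).filter (fun u => θ u = τ' ∧ j ∈ A κ' u)).card := by
            apply Finset.card_le_card
            intro u hu
            rw [Finset.mem_filter] at hu ⊢
            have x := (hT u).1 hu.2.1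
            refine ⟨hu.1, x, ?_⟩
            rw [e3 u x.le]
            have := hu.2.2
            rw [hA'] at this
            exact (Finset.mem_sdiff.1 this).1
          rw [f1]
          refine f0.trans (Nat.add_le_add_right (Nat.mul_le_mul_left _ f2) _)
  obtain ⟨κ, k1, k2, k3⟩ := key (Finset.univ.sup θ + 1)
  have hall : ∀ v, θ v < Finset.univ.sup θ + 1 := fun v =>
    Nat.lt_succ_of_le (Finset.le_sup (f := θ) (Finset.mem_univ v))
  refine ⟨κ, fun v u hu => k2 v u hu (hall u) (hall v), ?_⟩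
  intro v
  obtain ⟨j, hj⟩ : ∃ j, j = κ v := ⟨_, rfl⟩
  rw [← hj]
  have hjA : j ∈ A κ v := by rw [hj]; exact k1 v (hall v)
  have hload := hA2 κ v j hjA
  obtain ⟨S1, hS1⟩ : ∃ S1, S1 = (PD v).filter (fun u => h u / Λ + 2 ≤ h v / Λ ∧ κ u = j) := ⟨_, rfl⟩
  obtain ⟨S2, hS2⟩ : ∃ S2, S2 = (PD v).filter (fun u => h v / Λ < h u / Λ + 2 ∧ κ u = j) := ⟨_, rfl⟩
  obtain ⟨S3, hS3⟩ : ∃ S3, S3 = (PD v).filter (fun u => h v / Λ < h u / Λ + 2 ∧ j ∈ A κ u) :=
    ⟨_, rfl⟩
  rw [← hS1, ← hS3] at hload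
  have hsplit : ((PD v).filter (fun u => κ u = j)).card ≤ S1.card + S2.card := by
    refine le_trans (Finset.card_le_card ?_) (Finset.card_union_le S1 S2)
    intro u hu
    rw [Finset.mem_filter] at hu
    rw [Finset.mem_union, hS1, hS2, Finset.mem_filter, Finset.mem_filter]
    by_cases hc : h u / Λ + 2 ≤ h v / Λ
    · exact Or.inl ⟨hu.1, hc, hu.2⟩
    · exact Or.inr ⟨hu.1, not_le.1 hc, hu.2⟩
  obtain ⟨I, hI⟩ : ∃ I, I = Finset.Ico ((h v / Λ - 1) * B) ((h v / Λ + 2) * B) := ⟨_, rfl⟩
  have hIc : I.card ≤ 3 * B := by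
    rw [hI, Nat.card_Ico]
    have h5 : (h v / Λ + 2) * B ≤ (h v / Λ - 1) * B + 3 * B := by
      rw [← add_mul]
      exact Nat.mul_le_mul_right _ (by omega)
    omega
  have hmap : ∀ u ∈ PD v, h v / Λ < h u / Λ + 2 → θ u ∈ I := by
    intro u hu hc
    rw [hI, Finset.mem_Ico]
    have h5 : h u / Λ ≤ h v / Λ + 1 := by
      calc h u / Λ ≤ (h v + 1) / Λ := Nat.div_le_div_right (hh1 v u hu)
        _ ≤ (h v + Λ) / Λ := Nat.div_le_div_right (by omega)
        _ = h v / Λ + 1 := Nat.add_div_right _ hΛ0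
    have h6 := hσ u
    constructor
    · refine le_trans ?_ (Nat.div_mul_le_self (θ u) B)
      refine Nat.mul_le_mul_right _ (Nat.sub_le_iff_le_add.2 ?_)
      rw [← h6]
      exact Nat.le_of_lt_succ hc
    · have h7 := Nat.lt_div_mul_add (a := θ u) hB0
      have h8 : (θ u / B + 1) * B ≤ (h v / Λ + 2) * B := by
        refine Nat.mul_le_mul_right _ ?_
        rw [← h6]
        exact Nat.succ_le_succ h5
      have h9 : (θ u / B + 1) * B = θ u / B * B + B := by ring
      omega
  have hcI : ∀ τ ∈ I, ∀ u, θ u = τ → h v / Λ < h u / Λ + 2 := by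
    intro τ hτ u hu
    rw [hI, Finset.mem_Ico] at hτ
    have h6 : h u / Λ = τ / B := by rw [hσ u, hu]
    have h7 : h v / Λ - 1 ≤ τ / B := (Nat.le_div_iff_mul_le hB0).2 hτ.1
    rw [h6]
    exact Nat.lt_of_lt_of_le (by omega : h v / Λ < (h v / Λ - 1) + 2) (Nat.add_le_add_right h7 2)
  have hctl : ∀ τ ∈ I, h v / Λ ≤ τ / B + 1 := by
    intro τ hτ
    rw [hI, Finset.mem_Ico] at hτ
    have h7 : h v / Λ - 1 ≤ τ / B := (Nat.le_div_iff_mul_le hB0).2 hτ.1
    omega
  have hS2c : q * b * S2.card ≤ (q + 1) * S3.card + q * b * (3 * B * t) := by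
    have g1 : S2.card = ∑ τ ∈ I, (S2.filter (fun u => θ u = τ)).card := by
      apply Finset.card_eq_sum_card_fiberwise
      intro u hu
      have hu' : u ∈ S2 := hu
      rw [hS2, Finset.mem_filter] at hu'
      exact hmap u hu'.1 hu'.2.1
    have g2 : ∑ τ ∈ I, (S3.filter (fun u => θ u = τ)).card = S3.card := by
      symm
      apply Finset.card_eq_sum_card_fiberwise
      intro u hu
      have hu' : u ∈ S3 := hu
      rw [hS3, Finset.mem_filter] at hu'
      exact hmap u hu'.1 hu'.2.1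
    have g3 : ∀ τ ∈ I, q * b * (S2.filter (fun u => θ u = τ)).card ≤
        (q + 1) * (S3.filter (fun u => θ u = τ)).card + q * b * t := by
      intro τ hτ
      have c1 : (S2.filter (fun u => θ u = τ)).card ≤
          ((PD v).filter (fun u => θ u = τ ∧ κ u = j)).card := by
        apply Finset.card_le_card
        intro u hu
        rw [Finset.mem_filter, hS2, Finset.mem_filter] at hu
        rw [Finset.mem_filter]
        exact ⟨hu.1.1, hu.2, hu.1.2.2⟩
      have c2 : ((PD v).filter (fun u => θ u = τ ∧ j ∈ A κ u)).card ≤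
          (S3.filter (fun u => θ u = τ)).card := by
        apply Finset.card_le_card
        intro u hu
        rw [Finset.mem_filter] at hu
        rw [Finset.mem_filter, hS3, Finset.mem_filter]
        exact ⟨⟨hu.1, hcI τ hτ u hu.2.1, hu.2.2⟩, hu.2.1⟩
      by_cases hτs : τ < Finset.univ.sup θ + 1
      · have c3 := k3 τ hτs v (hctl τ hτ) j
        calc q * b * (S2.filter (fun u => θ u = τ)).card
            ≤ q * b * ((PD v).filter (fun u => θ u = τ ∧ κ u = j)).card :=
              Nat.mul_le_mul_left _ c1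
          _ ≤ _ := c3
          _ ≤ _ := Nat.add_le_add_right (Nat.mul_le_mul_left _ c2) _
      · have c4 : S2.filter (fun u => θ u = τ) = ∅ := by
          rw [Finset.filter_eq_empty_iff]
          intro u _ hu
          have := hall u
          omega
        rw [c4, Finset.card_empty, mul_zero]
        exact Nat.zero_le _
    calc q * b * S2.card = ∑ τ ∈ I, q * b * (S2.filter (fun u => θ u = τ)).card := by
          rw [← Finset.mul_sum, ← g1]
      _ ≤ ∑ τ ∈ I, ((q + 1) * (S3.filter (fun u => θ u = τ)).card + q * b * t) :=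
          Finset.sum_le_sum g3
      _ = (q + 1) * S3.card + I.card * (q * b * t) := by
          rw [Finset.sum_add_distrib, ← Finset.mul_sum, g2, Finset.sum_const, smul_eq_mul]
      _ ≤ (q + 1) * S3.card + 3 * B * (q * b * t) :=
          Nat.add_le_add_left (Nat.mul_le_mul_right _ hIc) _
      _ = (q + 1) * S3.card + q * b * (3 * B * t) := by ring
  -- final computation
  have hBv : 3 * B * t = 9 * (q + 1) * g * t := by rw [hB, hΛ]; ring
  rw [hBv] at hS2c
  obtain ⟨E, hE⟩ : ∃ E, E = 9 * (q + 1) * g * t := ⟨_, rfl⟩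
  rw [← hE] at hS2c ⊢
  -- multiply everything by `9 d (q+1)`
  have hpos : 0 < 9 * d * (q + 1) := by positivity
  refine Nat.le_of_mul_le_mul_left ?_ hpos
  have hx : 9 * d * (q + 1) * (q ^ 3 * K * ((PD v).filter (fun u => κ u = j)).card) ≤
      9 * d * (q + 1) * (q ^ 3 * K * (S1.card + S2.card)) := by gcongr
  refine hx.trans ?_
  have y1 : 9 * d * (q + 1) * (q ^ 3 * K * S1.card) ≤ (q + 1) ^ 2 * q * K * (a * S1.card) := by
    rw [ha]
    have : q ^ 3 * K * S1.card ≤ q * (q + 1) ^ 2 * K * S1.card := by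
      have : q ^ 3 ≤ q * (q + 1) ^ 2 := by nlinarith
      gcongr
    calc 9 * d * (q + 1) * (q ^ 3 * K * S1.card) ≤ 9 * d * (q + 1) * (q * (q + 1) ^ 2 * K * S1.card) :=
          Nat.mul_le_mul_left _ this
      _ = _ := by ring
  have y2 : 9 * d * (q + 1) * (q ^ 3 * K * S2.card) ≤
      (q + 1) ^ 2 * (q * K * S3.card) + 9 * d * (q + 1) * (q ^ 3 * K * E) := by
    have z : (q + 1) * q * K * (q * b * S2.card) ≤
        (q + 1) * q * K * ((q + 1) * S3.card + q * b * E) := Nat.mul_le_mul_left _ hS2c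
    calc 9 * d * (q + 1) * (q ^ 3 * K * S2.card) = (q + 1) * q * K * (q * b * S2.card) := by
          rw [hb]; ring
      _ ≤ _ := z
      _ = _ := by rw [hb]; ring
  have y3 : (q + 1) ^ 2 * (q * K * (a * S1.card + S3.card)) ≤ (q + 1) ^ 2 * ((q + 1) * m * a) :=
    Nat.mul_le_mul_left _ hload
  calc 9 * d * (q + 1) * (q ^ 3 * K * (S1.card + S2.card))
      = 9 * d * (q + 1) * (q ^ 3 * K * S1.card) + 9 * d * (q + 1) * (q ^ 3 * K * S2.card) := by ring
    _ ≤ (q + 1) ^ 2 * q * K * (a * S1.card) +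
        ((q + 1) ^ 2 * (q * K * S3.card) + 9 * d * (q + 1) * (q ^ 3 * K * E)) :=
        Nat.add_le_add y1 y2
    _ = (q + 1) ^ 2 * (q * K * (a * S1.card + S3.card)) + 9 * d * (q + 1) * (q ^ 3 * K * E) := by
        ring
    _ ≤ (q + 1) ^ 2 * ((q + 1) * m * a) + 9 * d * (q + 1) * (q ^ 3 * K * E) :=
        Nat.add_le_add_right y3 _
    _ = 9 * d * (q + 1) * ((q + 1) ^ 3 * m + q ^ 3 * K * E) := by rw [ha]; ring

end Pool.Agent.Helper7.KS3
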