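import Pool.Agent.Helper7.KS3.Goals
import Pool.Agent.Helper7.KS3.Greedy
import Pool.Agent.Helper7.KS.Composed

/-!
# Project KS3: the final theorem from the classes
-/

set_option autoImplicit false
open Classical

namespace Pool.Agent.Helper7.KS3

theorem two_pow_le {q : ℕ} (hq : 1 ≤ q) : 2 * q ^ q ≤ (q + 1) ^ q := by
  have h := one_add_mul_le_pow (R := ℝ) (a := 1 / (q : ℝ)) (by
    have : (0 : ℝ) ≤ 1 / (q : ℝ) := by positivity
    linarith) q
  have hq0 : (0 : ℝ) < q := by exact_mod_cast hq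
  have h1 : (1 + (q : ℝ) * (1 / q)) = 2 := by field_simp; norm_num
  rw [h1] at h
  have h2 : (1 + 1 / (q : ℝ)) ^ q = ((q : ℝ) + 1) ^ q / (q : ℝ) ^ q := by
    rw [← div_pow]; congr 1; field_simp
  rw [h2, le_div_iff₀ (by positivity)] at h
  exact_mod_cast h

theorem pow_cond {q x y : ℕ} (hq : 1 ≤ q) (h : y ≤ 2 ^ x) :
    y * q ^ (q * x) ≤ (q + 1) ^ (q * x) := by
  calc y * q ^ (q * x) ≤ 2 ^ x * q ^ (q * x) := Nat.mul_le_mul_right _ h
    _ = (2 * q ^ q) ^ x := by rw [mul_pow, ← pow_mul]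
    _ ≤ ((q + 1) ^ q) ^ x := Nat.pow_le_pow_left (two_pow_le hq) x
    _ = (q + 1) ^ (q * x) := by rw [← pow_mul]

/-- the arithmetic of the parameters -/
theorem arith {q r M g d K t : ℕ} (hq : 1 ≤ q) (hg : g = Nat.log 2 M + 3) (hd : d = 2 * r + 1)
    (hK : K = 27 * (9 * q + 1) ^ 2 * d) (ht : t = 9 * q * (3 * g + 6 * (9 * q + 1) * g + 3))
    (hM : 10 ^ 14 * q ^ 6 * (r + 1) ^ 2 * (Nat.log 2 M + 1) ^ 2 ≤ M) :
    9 * q * (K * (9 * (9 * q + 1) * g * (d + 1) * t)) ≤ M ∧ 9 * q * K ≤ M := by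
  obtain ⟨l, hl⟩ : ∃ l, l = Nat.log 2 M + 1 := ⟨_, rfl⟩
  rw [← hl] at hM
  have hl1 : 1 ≤ l := by omega
  have hgl : g ≤ 3 * l := by omega
  have hdr : d ≤ 2 * (r + 1) := by omega
  have hq1 : 9 * q + 1 ≤ 10 * q := by omega
  have hKb : K ≤ 5400 * q ^ 2 * (r + 1) := by
    rw [hK]
    calc 27 * (9 * q + 1) ^ 2 * d ≤ 27 * (10 * q) ^ 2 * (2 * (r + 1)) := by gcongr
      _ = 5400 * q ^ 2 * (r + 1) := by ring
  have htb : t ≤ 1782 * q ^ 2 * l := by
    rw [ht]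
    have h1 : 3 * g + 6 * (9 * q + 1) * g + 3 ≤ 66 * q * (3 * l) := by
      have h2 : 6 * (9 * q + 1) * g ≤ 60 * q * (3 * l) := by
        calc 6 * (9 * q + 1) * g ≤ 6 * (10 * q) * (3 * l) := by gcongr
          _ = 60 * q * (3 * l) := by ring
      have h3 : 3 * g + 3 ≤ 6 * q * (3 * l) := by
        have h4 : g + 1 ≤ 2 * (3 * l) := by omega
        have h5 : 3 * (g + 1) ≤ 3 * (2 * (3 * l)) := by omega
        calc 3 * g + 3 = 3 * (g + 1) := by ring
          _ ≤ 3 * (2 * (3 * l)) := h5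
          _ = 6 * 1 * (3 * l) := by ring
          _ ≤ 6 * q * (3 * l) := by gcongr
      have h6 : 66 * q * (3 * l) = 60 * q * (3 * l) + 6 * q * (3 * l) := by ring
      omega
    calc 9 * q * (3 * g + 6 * (9 * q + 1) * g + 3) ≤ 9 * q * (66 * q * (3 * l)) := by gcongr
      _ = 1782 * q ^ 2 * l := by ring
  have hd1 : d + 1 ≤ 2 * (r + 1) := by omega
  constructor
  · calc 9 * q * (K * (9 * (9 * q + 1) * g * (d + 1) * t))
        ≤ 9 * q * ((5400 * q ^ 2 * (r + 1)) * (9 * (10 * q) * (3 * l) * (2 * (r + 1)) *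
          (1782 * q ^ 2 * l))) := by gcongr
      _ = (9 * 5400 * 9 * 10 * 3 * 2 * 1782) * (q ^ 6 * (r + 1) ^ 2 * l ^ 2) := by ring
      _ ≤ 10 ^ 14 * (q ^ 6 * (r + 1) ^ 2 * l ^ 2) := by gcongr; norm_num
      _ = 10 ^ 14 * q ^ 6 * (r + 1) ^ 2 * l ^ 2 := by ring
      _ ≤ M := hM
  · calc 9 * q * K ≤ 9 * q * (5400 * q ^ 2 * (r + 1)) := by gcongr
      _ = 48600 * (q ^ 3 * (r + 1) ^ 1 * 1) := by ring
      _ ≤ 10 ^ 14 * (q ^ 6 * (r + 1) ^ 2 * l ^ 2) := by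
          have e1 : q ^ 3 ≤ q ^ 6 := Nat.pow_le_pow_right hq (by norm_num)
          have e2 : (r + 1) ^ 1 ≤ (r + 1) ^ 2 := Nat.pow_le_pow_right (by omega) (by norm_num)
          have e3 : 1 ≤ l ^ 2 := Nat.one_le_pow _ _ hl1
          gcongr
          norm_num
      _ = 10 ^ 14 * q ^ 6 * (r + 1) ^ 2 * l ^ 2 := by ring
      _ ≤ M := hM

theorem main (hC : S_CLS) (q k : ℕ) (m : Fin k → ℕ) (V : Type) [Fintype V] (G : SimpleGraph V)
    (H : Fin k → SimpleGraph V) (hq : 1 ≤ q)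
    (hH : ∀ i, ∀ S : Finset V, S.Nonempty →
      ∃ v ∈ S, (S.filter (fun w => (H i).Adj v w)).card ≤ m i)
    (hG : G = ⨆ i, H i) (i₀ : Fin k)
    (hM : 10 ^ 14 * q ^ 6 * ((∑ i ∈ Finset.univ.erase i₀, m i) + 1) ^ 2 *
      (Nat.log 2 (m i₀) + 1) ^ 2 ≤ m i₀) :
    G.Colorable (m i₀ + m i₀ / q) := by
  obtain ⟨M, hMdef⟩ : ∃ M, M = m i₀ := ⟨_, rfl⟩
  obtain ⟨r, hr⟩ : ∃ r, r = ∑ i ∈ Finset.univ.erase i₀, m i := ⟨_, rfl⟩
  rw [← hMdef, ← hr] at hM
  rw [← hMdef]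
  -- the two graphs
  obtain ⟨m', hm'⟩ : ∃ m' : Fin k → ℕ, ∀ i, m' i = if i = i₀ then 0 else m i := ⟨_, fun _ => rfl⟩
  obtain ⟨H', hH'⟩ : ∃ H' : Fin k → SimpleGraph V, ∀ i, H' i = if i = i₀ then ⊥ else H i :=
    ⟨_, fun _ => rfl⟩
  have hsum : ∑ i, m' i = r := by
    rw [hr, ← Finset.add_sum_erase _ _ (Finset.mem_univ i₀), hm', if_pos rfl, zero_add]
    apply Finset.sum_congr rfl
    intro i hi
    rw [hm', if_neg (Finset.ne_of_mem_erase hi)]
  have hdeg' : ∀ i, ∀ S : Finset V, S.Nonempty →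
      ∃ v ∈ S, (S.filter (fun w => (H' i).Adj v w)).card ≤ m' i := by
    intro i S hS
    by_cases hi : i = i₀
    · obtain ⟨v, hv⟩ := hS
      refine ⟨v, hv, ?_⟩
      rw [hH', if_pos hi]
      simp
    · obtain ⟨v, hv, hv'⟩ := hH i S hS
      refine ⟨v, hv, ?_⟩
      rw [hH', if_neg hi, hm', if_neg hi]
      exact hv'
  obtain ⟨F, hF⟩ : ∃ F : SimpleGraph V, F = ⨆ i, H' i := ⟨_, rfl⟩
  have hFdeg := fun S hS => Helper7.KS.two_M_degenerate F H' hdeg' hF S hS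
  rw [hsum] at hFdeg
  obtain ⟨rF, hrF, hrFc⟩ := Helper7.KS.degen_rank F (2 * r) hFdeg
  obtain ⟨rD, hrD, hrDc⟩ := Helper7.KS.degen_rank (H i₀) (m i₀) (hH i₀)
  rw [← hMdef] at hrDc
  obtain ⟨PF, hPF⟩ : ∃ PF : V → Finset V, ∀ v, PF v = Finset.univ.filter
      (fun w => F.Adj v w ∧ rF w < rF v) := ⟨_, fun _ => rfl⟩
  obtain ⟨PD, hPD⟩ : ∃ PD : V → Finset V, ∀ v, PD v = Finset.univ.filter
      (fun w => (H i₀).Adj v w ∧ rD w < rD v) := ⟨_, fun _ => rfl⟩
  have hadj : ∀ u v, G.Adj u v → F.Adj u v ∨ (H i₀).Adj u v := by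
    intro u v huv
    rw [hG, SimpleGraph.iSup_adj] at huv
    obtain ⟨i, hi⟩ := huv
    by_cases hi0 : i = i₀
    · right; rw [← hi0]; exact hi
    · left
      rw [hF, SimpleGraph.iSup_adj]
      exact ⟨i, by rw [hH', if_neg hi0]; exact hi⟩
  -- parameters
  obtain ⟨g, hg⟩ : ∃ g, g = Nat.log 2 M + 3 := ⟨_, rfl⟩
  obtain ⟨d, hd⟩ : ∃ d, d = 2 * r + 1 := ⟨_, rfl⟩
  obtain ⟨K, hK⟩ : ∃ K, K = 27 * (9 * q + 1) ^ 2 * d := ⟨_, rfl⟩
  obtain ⟨t, ht⟩ : ∃ t, t = 9 * q * (3 * g + 6 * (9 * q + 1) * g + 3) := ⟨_, rfl⟩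
  obtain ⟨ar1, ar2⟩ := arith hq hg hd hK ht hM
  have hM1 : 1 ≤ M := by
    refine le_trans ?_ hM
    have : 0 < 10 ^ 14 * q ^ 6 * (r + 1) ^ 2 * (Nat.log 2 M + 1) ^ 2 := by positivity
    omega
  have hMg : 4 * M ≤ 2 ^ g := by
    have h1 := Nat.lt_pow_succ_log_self (b := 2) (by norm_num) M
    rw [hg, show Nat.log 2 M + 3 = (Nat.log 2 M + 1) + 2 by ring, pow_add]
    omega
  have hMg' : M ≤ 2 ^ g := by omega
  have hKg : K ≤ 2 ^ g := by
    refine le_trans ?_ hMg'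
    refine le_trans ?_ ar2
    exact Nat.le_mul_of_pos_left _ (by omega)
  have hcond : 4 * (M * 2 ^ (g + 6 * (9 * q + 1) * g + 1) * K) * (9 * q) ^ t ≤ (9 * q + 1) ^ t := by
    rw [ht]
    apply pow_cond (by omega)
    calc 4 * (M * 2 ^ (g + 6 * (9 * q + 1) * g + 1) * K)
        ≤ 2 ^ 2 * (2 ^ g * 2 ^ (g + 6 * (9 * q + 1) * g + 1) * 2 ^ g) := by
          gcongr
          norm_num
      _ = 2 ^ (3 * g + 6 * (9 * q + 1) * g + 3) := by
          rw [← pow_add, ← pow_add, ← pow_add]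
          congr 1
          ring
  obtain ⟨κ, hκF, hκD⟩ := hC V (9 * q) d M g t K PF PD rF rD (by omega) (by omega) hM1 (by omega)
    hMg hK
    (by
      intro v u hu
      rw [hPF, Finset.mem_filter] at hu
      exact hu.2.2)
    (by
      intro v u hu
      rw [hPD, Finset.mem_filter] at hu
      exact hu.2.2)
    (by
      intro v
      rw [hPF, hd]
      exact (hrFc v).trans (Nat.le_succ _))
    (by
      intro v
      rw [hPD]
      exact hrDc v)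
    hcond
  -- greedy colouring of the classes
  obtain ⟨L, hL⟩ : ∃ L, L = Finset.univ.sup (fun v => ((PD v).filter (fun u => κ u = κ v)).card) :=
    ⟨_, rfl⟩
  have hLv : ∀ v, ((PD v).filter (fun u => κ u = κ v)).card ≤ L := by
    intro v
    rw [hL]
    exact Finset.le_sup (f := fun v => ((PD v).filter (fun u => κ u = κ v)).card)
      (Finset.mem_univ v)
  obtain ⟨c, hc⟩ := greedy (fun v => (PD v).filter (fun u => κ u = κ v)) rD
    (by
      intro v u hu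
      have hu' := (Finset.mem_filter.1 hu).1
      rw [hPD, Finset.mem_filter] at hu'
      exact hu'.2.2) (L + 1) (fun v => Nat.lt_succ_of_le (hLv v))
  have hcol : G.Colorable (K * (L + 1)) := by
    have hC : G.Coloring (Fin K × Fin (L + 1)) := by
      refine SimpleGraph.Coloring.mk (fun v => (κ v, c v)) ?_
      intro u v huv heq
      have e1 : κ u = κ v := congrArg Prod.fst heq
      have e2 : c u = c v := congrArg Prod.snd heq
      rcases hadj u v huv with h | h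
      · have hne : rF u ≠ rF v := fun hh => h.ne (hrF hh)
        rcases lt_or_gt_of_ne hne with h1 | h1
        · exact hκF v u (by rw [hPF, Finset.mem_filter]; exact ⟨Finset.mem_univ _, h.symm, h1⟩) e1
        · exact hκF u v (by rw [hPF, Finset.mem_filter]; exact ⟨Finset.mem_univ _, h, h1⟩) e1.symm
      · have hne : rD u ≠ rD v := fun hh => h.ne (hrD hh)
        rcases lt_or_gt_of_ne hne with h1 | h1
        · refine hc v u ?_ e2
          rw [Finset.mem_filter, hPD, Finset.mem_filter]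
          exact ⟨⟨Finset.mem_univ _, h.symm, h1⟩, e1⟩
        · refine hc u v ?_ e2.symm
          rw [Finset.mem_filter, hPD, Finset.mem_filter]
          exact ⟨⟨Finset.mem_univ _, h, h1⟩, e1.symm⟩
    have := hC.colorable
    rwa [Fintype.card_prod, Fintype.card_fin, Fintype.card_fin] at this
  refine hcol.mono ?_
  -- the number of colours
  have hKL : 9 * q * (K * L) ≤ 9 * q * M + 7 * M + M := by
    rcases Finset.univ.eq_empty_or_nonempty (α := V) with he | hne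
    · have : L = 0 := by rw [hL, he]; simp
      rw [this, mul_zero, mul_zero]
      exact Nat.zero_le _
    · obtain ⟨v, -, hv⟩ := Finset.exists_mem_eq_sup Finset.univ hne
        (fun v => ((PD v).filter (fun u => κ u = κ v)).card)
      rw [← hL] at hv
      have h1 := hκD v
      rw [← hv] at h1
      obtain ⟨Q, hQ⟩ : ∃ Q, Q = 9 * q := ⟨_, rfl⟩
      rw [← hQ] at h1 ar1 ⊢
      have hQ1 : 1 ≤ Q := by omega
      obtain ⟨E, hE⟩ : ∃ E, E = 9 * (Q + 1) * g * (d + 1) * t := ⟨_, rfl⟩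
      rw [← hE] at h1 ar1
      have h2 : (Q + 1) ^ 3 * M ≤ (Q ^ 3 + 7 * Q ^ 2) * M := by
        gcongr
        nlinarith [Nat.mul_le_mul hQ1 hQ1]
      have h3 : Q ^ 3 * K * E = Q ^ 2 * (Q * (K * E)) := by ring
      have h4 : Q ^ 2 * (Q * (K * E)) ≤ Q ^ 2 * M := Nat.mul_le_mul_left _ ar1
      have h5 : Q ^ 2 * (Q * (K * L)) ≤ Q ^ 2 * (Q * M + 7 * M + M) := by
        calc Q ^ 2 * (Q * (K * L)) = Q ^ 3 * K * L := by ring
          _ ≤ (Q + 1) ^ 3 * M + Q ^ 3 * K * E := h1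
          _ ≤ (Q ^ 3 + 7 * Q ^ 2) * M + Q ^ 2 * M := by
              rw [h3]; exact Nat.add_le_add h2 h4
          _ = Q ^ 2 * (Q * M + 7 * M + M) := by ring
      exact Nat.le_of_mul_le_mul_left h5 (by positivity)
  have h6 : q * (K * (L + 1)) ≤ q * M + M := by
    have h7 : 9 * (q * (K * (L + 1))) ≤ 9 * (q * M + M) := by
      calc 9 * (q * (K * (L + 1))) = 9 * q * (K * L) + 9 * q * K := by ring
        _ ≤ (9 * q * M + 7 * M + M) + M := Nat.add_le_add hKL ar2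
        _ = 9 * (q * M + M) := by ring
    omega
  have h8 : K * (L + 1) ≤ (q * M + M) / q := by
    rw [Nat.le_div_iff_mul_le (by omega)]
    calc K * (L + 1) * q = q * (K * (L + 1)) := by ring
      _ ≤ q * M + M := h6
  rwa [Nat.mul_add_div (by omega)] at h8

end Pool.Agent.Helper7.KS3
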