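import Mathlib

/-!
# Project KS3 (MP_c4bd07_co, Klein and Schoenheim): the leading order when one piece dominates

`F` is `d`-degenerate, `D` is `m`-degenerate, both on the finite vertex set `V`, `V` of any size. We
colour `F ∪ D` with `m + m/q` colours if `m ≥ C q^6 d² (log m)²`. The parents of `v` in `F` are `PF v`
(`|PF v| ≤ d`), those in `D` are `PD v` (`|PD v| ≤ m`). We look for classes `κ : V → Fin K` such that the
ends of an edge of `F` are in different classes and each `v` has at most `(1 + small) m / K` parents in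
`D` which are in the class of `v`; then each class is coloured greedily with its own colours.
The vertices are treated in the order of decreasing weight (hubs first), in levels `ℓ`.
-/

set_option autoImplicit false
open Classical

namespace Pool.Agent.Helper7.KS3

/-- **S_LEV** (hub levels). There is a level function `ℓ` such that the level of a `D`-parent of `v` is at
most `ℓ v + g`, every `v` has at most `8 d` children in `F` of level `≤ ℓ v`, and at most
`2^(g+J+1)` children in `D` of level `≤ ℓ v + J`.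

PROOF. For `w : V → ℝ` let `(B w)(v) = (1/(4d)) ∑_{c : v ∈ PF c} w(c) + 2^(-g) ∑_{c : v ∈ PD c} w(c)`. If
`w ≥ 0` then `∑_v (B w)(v) = ∑_c w(c) (|PF c|/(4d) + |PD c|/2^g) ≤ (1/2) ∑_c w(c)`, because
`4 m ≤ 2^g`. So `∑_v (B^i 1)(v) ≤ n/2^i`, `n = |V|`. Let `N` satisfy `n ≤ 2^(N+1)` and
`w = ∑_{i ≤ N} B^i 1`. Then `w ≥ 1` and `B w = w - 1 + B^(N+1) 1 ≤ w`, since
`B^(N+1) 1 ≤ n/2^(N+1) ≤ 1` pointwise. So `w > 0` and
`(∗) w(v) ≥ (1/(4d)) ∑_{c : v ∈ PF c} w(c) + 2^(-g) ∑_{c : v ∈ PD c} w(c)`.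
Let `W` be an upper bound of `w` and let `ℓ v ∈ ℕ` be such that
`2^(ℓ v) w(v) ≤ W < 2^(ℓ v + 1) w(v)` (`exists_nat_pow_near` for `W / w(v) ≥ 1`).
* If `u ∈ PD v` then `w(u) ≥ 2^(-g) w(v)` by (∗), so
  `2^(ℓ u) w(u) ≤ W < 2^(ℓ v + 1) w(v) ≤ 2^(ℓ v + 1 + g) w(u)`, `ℓ u ≤ ℓ v + g`.
* Let `c` be a child of `v` in `F` (`v ∈ PF c`) with `ℓ c ≤ ℓ v`. Then
  `w(c) > W / 2^(ℓ c + 1) ≥ W / 2^(ℓ v + 1) ≥ w(v)/2`. If there are `x` of them, (∗) gives
  `w(v) ≥ (1/(4d)) x w(v)/2`, so `x ≤ 8 d`.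
* Let `c` be a child of `v` in `D` with `ℓ c ≤ ℓ v + J`. Then `w(c) > W / 2^(ℓ v + J + 1) ≥
  w(v) / 2^(J+1)`; if there are `x` of them, `w(v) ≥ 2^(-g) x w(v) / 2^(J+1)`, `x ≤ 2^(g+J+1)`. -/
def S_LEV : Prop :=
  ∀ (V : Type) [Fintype V] (d m g : ℕ) (PF PD : V → Finset V), 1 ≤ d → 4 * m ≤ 2 ^ g →
    (∀ v, (PF v).card ≤ d) → (∀ v, (PD v).card ≤ m) →
  ∃ ℓ : V → ℕ, (∀ v, ∀ u ∈ PD v, ℓ u ≤ ℓ v + g) ∧
    (∀ v, (Finset.univ.filter (fun c => v ∈ PF c ∧ ℓ c ≤ ℓ v)).card ≤ 8 * d) ∧
    (∀ v J, (Finset.univ.filter (fun c => v ∈ PD c ∧ ℓ c ≤ ℓ v + J)).card ≤ 2 ^ (g + J + 1))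

/-- **S_REC** (the recursion with loss of memory). `D` is acyclic (rank function `rk`), every vertex has at
most `m` parents, `h` is a level function which increases by at most `1` from a vertex to its parents,
`σ v = h v / Λ` is the shell of `v`. `κ` describes realized classes. There are sets `A κ v` of `a`
classes such that: for `j ∈ A κ v`, the load of `j` at `v` is at most `(1 + 1/q) m / K`, where a parent `u`
with `σ u + 2 ≤ σ v` loads the class `κ u` with `1`, and the other parents `u` load every class of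
`A κ u` with `1/a`; and `A κ v` depends only on the restriction of `κ` to the shells below that of `v`.

PROOF. Let `dep v = Λ - h v % Λ`, `1 ≤ dep v ≤ Λ`, and `P k = {j : j + k a < K}` (`P 0` is everything). For a
set `S` of classes let `fst S` be the set of the first `a` elements of `S` (`a` elements of `S`, each of
which is preceded by less than `a` elements of `S`; of cardinality `a` if `|S| ≥ a`, and at most `a`
otherwise, e.g. empty). Fix `κ`. By recursion on `rk` define a pair (`A v`, `cl v`), a set and a truth value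
(`v` is *clean* or *tainted*). (Formally: iterate the map `f ↦ (v ↦ rule (f, v))` on functions
`f : V → Finset (Fin K) × Prop`; the value at `v` is stable after `rk v + 1` steps.) The rule:
`ext v j` = number of `u ∈ PD v` with `σ u + 2 ≤ σ v`, `κ u = j`;
`FL v j = a ext v j + #{u ∈ PD v : σ v < σ u + 2, j ∈ A u}` (`a` times the full load);
`CL v j = a ext v j + #{u ∈ PD v : σ v < σ u + 2, (σ u < σ v or (σ u = σ v and cl u)), j ∈ A u}`;
`good x` means `q K x ≤ (q+1) m a`; `T v = {j : good (FL v j)}`, `R v = {j : j ∉ P (dep v - 1), good (CL v j)}`;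
`cl v ⟺ a ≤ |R v|`; `A v = fst (R v)` if `cl v`, `A v = fst (T v)` otherwise.
(0) `|T v| ≥ 3a`: `∑_j FL v j ≤ a |PD v| ≤ a m` since `|A u| ≤ a`. If `|T v| < 3a`, more than
`K - 3a = 3 q a` classes are not in `T v`, for which `q K FL v j ≥ (q+1) m a + 1`, so
`(3qa + 1) ((q+1) m a + 1) ≤ q K a m = 3 q a (q+1) m a`, a contradiction. So `|A v| = a` for all `v`.
(1) *If `dep v ≥ 2` then every parent `u` has `σ u ≤ σ v`, and if `σ u = σ v` then `dep u ≥ dep v - 1`.* (From
`h u ≤ h v + 1`.) If `dep v = 1` then `P 0` is everything, `R v = ∅` and `v` is tainted.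
(2) *If `v` is tainted then `A v ⊆ P (dep v)`* (induction on `rk`), *and if `dep v ≥ 2` then
`FL v j = CL v j` for all `v` and all `j ∉ P (dep v - 1)`*. The second claim: by (1) the only parents which are counted
in `FL` and not in `CL` are tainted `u` with `σ u = σ v`, `j ∈ A u ⊆ P (dep u) ⊆ P (dep v - 1)`. The first
claim, `dep v = 1`: an element `j` of `fst (T v)` is followed by at least `2a` elements of `T v`, so
`j + a < K`. `dep v = k ≥ 2`: `T v \ P (k-1) ⊆ R v` has less than `a` elements, so `T v ∩ P (k-1)` has more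
than `2a` elements. `P (k-1)` is an initial segment, so an element `j` of `fst (T v)` is in it and
followed by at least `a` elements of `T v ∩ P (k-1)`: `j + a + (k-1) a < K`.
(3) *If `dep v = Λ` then `v` is clean*, since `P Λ = ∅` and `|A v| = a ≥ 1`.
(4) *`good (FL v j)` for `j ∈ A v`*: clear for tainted `v`; if `v` is clean then `dep v ≥ 2` and
`FL v j = CL v j` by (2).
(5) *Causality.* Consider the results `A, cl` for `κ` and `A', cl'` for `κ'`, and `s` such that `κ u = κ' u` for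
all `u` with `σ u + 2 ≤ s`. By induction on `rk v`, for all `v` with `σ v ≤ s`: `cl v ⟺ cl' v`, and
`A v = A' v` if `σ v < s` or `cl v`. Indeed `ext v` is the same for both. `CL v` is the same: it counts `u` with
`σ u < σ v` (so `σ u < s`, `A u = A' u`) and `u` with `σ u = σ v` and `cl u ⟺ cl' u`, where `A u = A' u`. So `R v` and
`cl v` are the same, and `A v` if `v` is clean. If `σ v < s` then `FL v` is the same: a parent `u` has
`σ u ≤ σ v + 1 ≤ s`; if `σ u < s` use the induction hypothesis; if `σ u = s` then `h u = h v + 1` and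
`h u % Λ = 0`, so `dep u = Λ`, `u` is clean and `A u = A' u`. The third property is the case `s = σ v + 1`. -/
def S_REC : Prop :=
  ∀ (V : Type) [Fintype V] (q a m K Λ : ℕ) (PD : V → Finset V) (rk : V → ℕ) (h : V → ℕ),
    1 ≤ q → 1 ≤ a → K = 3 * (q + 1) * a → Λ = 3 * (q + 1) →
    (∀ v, ∀ u ∈ PD v, rk u < rk v) → (∀ v, (PD v).card ≤ m) →
    (∀ v, ∀ u ∈ PD v, h u ≤ h v + 1) →
  ∃ A : (V → Fin K) → V → Finset (Fin K),
    (∀ κ v, (A κ v).card = a) ∧
    (∀ κ v, ∀ j ∈ A κ v,
      q * K * (a * ((PD v).filter (fun u => h u / Λ + 2 ≤ h v / Λ ∧ κ u = j)).card +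
        ((PD v).filter (fun u => h v / Λ < h u / Λ + 2 ∧ j ∈ A κ u)).card) ≤ (q + 1) * m * a) ∧
    (∀ κ κ' v, (∀ u, h u / Λ < h v / Λ → κ u = κ' u) → A κ v = A κ' v)

/-- **S_STP** (one step). The vertices `u ∈ T` choose a class in `A u`, `|A u| ≥ b`, such that, for the
readers `v ∈ R` and every class `j`, the number of the parents of `v` in `T` which choose `j` is at most
`(1 + 1/q)/b` times the number of those for which `j` is possible, plus `t`.

PROOF. Choose `A' u ⊆ A u` with exactly `b` elements and a bijection `e u : Fin b → A' u` for `u ∈ T`; the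
variables are `ω ∈ (V → Fin b)` (uniform), `κ u = e u (ω u)` for `u ∈ T`, and `κ u` is a fixed class for `u ∉ T`.
Let `v ∈ R`, `j : Fin K`, `X = #{u ∈ PD v ∩ T : κ u = j}`, `c = #{u ∈ PD v ∩ T : j ∈ A' u}`. The bad event is
`q b X > (q+1) c + q b t`. Let `λ = log (1 + 1/q)`. `E exp(λ X) = (1 + (1/b)(1/q))^c ≤ exp(c/(q b))` by
independence (`Finset.prod_univ_sum`, `Fintype.piFinset`). Since `λ ≥ 1/(q+1)`, a bad `ω` satisfies
`λ X ≥ λ (q+1) c/(q b) + λ t ≥ c/(q b) + λ t`, so the probability of the bad event is at most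
`exp(-λ t) = (q/(q+1))^t`. The bad event depends on the variables in `PD v ∩ T`, at most `m` of them, and
each variable `u ∈ T` occurs for at most `N` readers and `K` classes; so it is dependent on at most
`m N K` bad events. Use the symmetric local lemma `Pool.Agent.Helper51.Girth4.stmtLLL` (statement
`StmtLLL` in `Pool/Agent/Helper41/Girth4/Stmts.lean`, probabilities `Pr` and their lemmas in
`Pool/Agent/Helper41/Girth4/Prob.lean`; an application is in `Pool/Agent/Helper9/KS2_E.lean`), with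
index type `V × Fin K` (the event is `False` for `v ∉ R`), `p = (q/(q+1))^t`, degree `m N K`. -/
def S_STP : Prop :=
  ∀ (V : Type) [Fintype V] (q b m K N t : ℕ) (PD : V → Finset V) (T R : Finset V)
    (A : V → Finset (Fin K)),
    1 ≤ q → 1 ≤ b → 1 ≤ m → 1 ≤ K → 1 ≤ N →
    (∀ v, (PD v).card ≤ m) → (∀ u ∈ T, b ≤ (A u).card) →
    (∀ u ∈ T, (R.filter (fun v => u ∈ PD v)).card ≤ N) →
    4 * (m * N * K) * q ^ t ≤ (q + 1) ^ t →
  ∃ κ : V → Fin K, (∀ u ∈ T, κ u ∈ A u) ∧
    ∀ v ∈ R, ∀ j : Fin K,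
      q * b * ((PD v).filter (fun u => u ∈ T ∧ κ u = j)).card ≤
        (q + 1) * ((PD v).filter (fun u => u ∈ T ∧ j ∈ A u)).card + q * b * t

/-- **S_CLS** (the classes). With `s = 9 d`, `a = 9 d (q+1)`, `K = 3 (q+1) a`, `Λ = 3 (q+1)`.

PROOF (from `S_LEV`, `S_REC`, `S_STP`). Let `ℓ` be given by `S_LEV`, `h v = ℓ v / g`, so `h u ≤ h v + 1` for
`u ∈ PD v`; `σ v = h v / Λ`. Let `φ : V → ℕ`, `φ < d + 1`, be a proper colouring of `F` (greedy), and
`θ v = ℓ v (d+1) + φ v` the time of `v`. Let `A` be given by `S_REC`. By induction on `τ` there is `κ` such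
that (i) `κ v ∈ A κ v` for `θ v < τ`; (ii) `κ u ≠ κ v` for `u ∈ PF v`, `θ u, θ v < τ`; (iii) for `τ' < τ`, all `v` with
`σ v ≤ τ'/(d+1)/g/Λ + 1` and all `j`, with `b = a - s = q s`:
`q b #{u ∈ PD v : θ u = τ', κ u = j} ≤ (q+1) #{u ∈ PD v : θ u = τ', j ∈ A κ u} + q b t`.
Step: `T = {u : θ u = τ}`; `u ∈ T` avoids the classes of its `F`-neighbours `u'` with `θ u' < τ`, at most `d`
parents and `8 d` children. A reader `v` of `u` has `σ v ≤ σ u + 1`, `ℓ v ≤ ℓ u + 2 g Λ`; there are at most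
`2^(g + 2 g Λ + 1)` of them. Apply `S_STP`. At the end, for `j = κ v ∈ A κ v`: the load of `j` at `v` is at
most `e + ∑_τ ((q+1) c_τ/(q b) + t)`, where `τ` runs over an interval of length `3 g Λ (d+1)`, and
`(q+1)/(q b) = ((q+1)/q)²/a`; use the second property of `S_REC`. -/
def S_CLS : Prop :=
  ∀ (V : Type) [Fintype V] (q d m g t K : ℕ) (PF PD : V → Finset V) (rkF rk : V → ℕ),
    1 ≤ q → 1 ≤ d → 1 ≤ m → 1 ≤ g → 4 * m ≤ 2 ^ g → K = 27 * (q + 1) ^ 2 * d →
    (∀ v, ∀ u ∈ PF v, rkF u < rkF v) → (∀ v, ∀ u ∈ PD v, rk u < rk v) →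
    (∀ v, (PF v).card ≤ d) → (∀ v, (PD v).card ≤ m) →
    4 * (m * 2 ^ (g + 6 * (q + 1) * g + 1) * K) * q ^ t ≤ (q + 1) ^ t →
  ∃ κ : V → Fin K, (∀ v, ∀ u ∈ PF v, κ u ≠ κ v) ∧
    ∀ v, q ^ 3 * K * ((PD v).filter (fun u => κ u = κ v)).card ≤
      (q + 1) ^ 3 * m + q ^ 3 * K * (9 * (q + 1) * g * (d + 1) * t)

end Pool.Agent.Helper7.KS3
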