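import Pool.Agent.Helper7.KS3.Goals
import Pool.Agent.Helper41.Girth4.Prob

/-!
# Project KS3, part 2: the step with edges of `F` inside a level

With this step one level is coloured at once, and the condition of the main theorem becomes
`m ≥ C q^6 d (log m)²`.
-/

set_option autoImplicit false
open Classical

namespace Pool.Agent.Helper7.KS3

open Pool.Agent.Helper41.Girth4 (Pr)

/-- **S_LLL** (lopsided local lemma, uniform probability `Pr` on a finite nonempty set `Ω`).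

PROOF. The proof of `Pool.Agent.Helper51.Girth4.stmtLLL` (file `Pool/Agent/Helper51/Girth4/LLL.lean`) with
the hypothesis in place of the step `hind`: by induction on `|T|`,
`0 < Pr (no A_i, i ∈ T)` and `Pr (A_j and no A_i, i ∈ T) ≤ 2 p Pr (no A_i, i ∈ T)`; split `T` in
`T ∩ Nb j` and `T \ Nb j`. -/
def S_LLL : Prop :=
  ∀ (Ω J : Type) [Fintype Ω] [Nonempty Ω] [Fintype J] (A : J → Ω → Prop) (Nb : J → Finset J)
    (p : ℝ) (d : ℕ), 0 ≤ p → 1 ≤ d →
    (∀ j, ∀ T : Finset J, Disjoint T (Nb j) →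
      Pr (fun ω => A j ω ∧ ∀ i ∈ T, ¬ A i ω) ≤ p * Pr (fun ω => ∀ i ∈ T, ¬ A i ω)) →
    (∀ j, (Nb j).card ≤ d) → 4 * p * d ≤ 1 →
  ∃ ω, ∀ j, ¬ A j ω

/-- **S_STQ** (one step, with a graph `F` on `T`). The vertices `u ∈ T` choose a class in `A u`,
`|A u| ≥ b + f u`, `f u` the number of the neighbours of `u` in `T`; neighbours in `F` choose different classes, and, for
the readers `v ∈ R` and every class `j`, the number of the parents of `v` in `T` which choose `j` is at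
most `(1 + 1/q)/b` times the number of those for which `j` is possible, plus `t`.

PROOF. Let `k₀` be a class, and `Ω` the set of all `κ : V → Fin K` with `κ u ∈ A u` for `u ∈ T`, `κ u = k₀` for
`u ∉ T`, and `κ u ≠ κ w` for adjacent `u, w ∈ T`. For `κ ∈ Ω`, `u ∈ T` let `Φ u κ` be the set of the `κ' ∈ Ω`
which are equal to `κ` off `u`; `|Φ u κ| ≥ |A u| - f u ≥ b` (the values which are not in `A u` or taken by a
neighbour of `u` in `T` are excluded). `Ω` is not empty: more generally, choose the values of the vertices of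
`T` one after the other (greedy, `|A u| > f u`).
(1) Let `u ∈ T`, `j : Fin K`, and `G : (V → Fin K) → ℝ`, `G ≥ 0`, a function which does not depend on
the value at `u`. Then `b ∑_{κ ∈ Ω, κ u = j} G κ ≤ ∑_{κ ∈ Ω} G κ`: the sets `Φ u κ` for the `κ ∈ Ω` with
`κ u = j` are disjoint (`κ` is determined by `κ' ∈ Φ u κ`), have at least `b` elements, and `G` is constant
on each of them (`Finset.sum_biUnion`).
(2) Let `y = 1 + 1/q`, `v ∈ R`, `j : Fin K`, `S = {u ∈ PD v : u ∈ T, j ∈ A u}`, `c = |S|`, `X κ = #{u ∈ S : κ u = j}`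
(this is also `#{u ∈ PD v : u ∈ T, κ u = j}` for `κ ∈ Ω`). Let `W : (V → Fin K) → Prop` not depend on the
values at the elements of `S`. Then
`∑_{κ ∈ Ω, W κ} y^(X κ) ≤ (1 + 1/(q b))^c |{κ ∈ Ω : W κ}|`: remove the elements `u` of `S` one by one; for
`S' ⊆ S`, `u ∈ S'`, `y^(#{u' ∈ S' : κ u' = j}) = y^(#{u' ∈ S' \ u : κ u' = j}) (1 + (y - 1) [κ u = j])`, and use
(1) with `G κ = y^(#{u' ∈ S' \ u : κ u' = j}) [W κ]`.
(3) The bad event is `q b X > (q+1) c + q b t`. Let `λ = log y ≥ 1/(q+1)`. For a bad `κ`,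
`λ X ≥ λ (q+1) c / (q b) + λ t ≥ c/(q b) + λ t`, so `y^(X κ) ≥ exp(c/(q b)) y^t ≥ (1 + 1/(q b))^c y^t`. So by (2)
`#{κ ∈ Ω : bad, W κ} ≤ y^(-t) #{κ ∈ Ω : W κ}`, `y^(-t) = (q/(q+1))^t = p`.
(4) Apply `S_LLL` with `Ω` (as a subtype), `J = V × Fin K`, `A (v, j)` = (`v ∈ R` and the event (3)),
`Nb (v, j)` = the set of the `(v', j')` with `v' ∈ R` such that some `u ∈ T` is in `PD v` and in `PD v'`, if
`v ∈ R`, and `∅` if `v ∉ R`: it has at most `m N K` elements. If `i = (v', j')` is not in `Nb (v, j)` then the event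
`A i` does not depend on the values at the `u ∈ PD v ∩ T`, which gives the hypothesis by (3). -/
def S_STQ : Prop :=
  ∀ (V : Type) [Fintype V] (q b m K N t : ℕ) (PD : V → Finset V) (T R : Finset V)
    (A : V → Finset (Fin K)) (F : SimpleGraph V),
    1 ≤ q → 1 ≤ b → 1 ≤ m → 1 ≤ K → 1 ≤ N →
    (∀ v, (PD v).card ≤ m) →
    (∀ u ∈ T, b + (T.filter (fun w => F.Adj u w)).card ≤ (A u).card) →
    (∀ u ∈ T, (R.filter (fun v => u ∈ PD v)).card ≤ N) →
    4 * (m * N * K) * q ^ t ≤ (q + 1) ^ t →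
  ∃ κ : V → Fin K, (∀ u ∈ T, κ u ∈ A u) ∧
    (∀ u ∈ T, ∀ w ∈ T, F.Adj u w → κ u ≠ κ w) ∧
    ∀ v ∈ R, ∀ j : Fin K,
      q * b * ((PD v).filter (fun u => u ∈ T ∧ κ u = j)).card ≤
        (q + 1) * ((PD v).filter (fun u => u ∈ T ∧ j ∈ A u)).card + q * b * t

/-- **S_CLT** (the classes; compare `S_CLS`). `f = 9 d` neighbours in `F` of level at most that of `v`,
`a = 9 d (q+1)`, `b = a - 9 d = 9 d q`. The time of `v` is its level `ℓ v`. -/
def S_CLT : Prop :=
  ∀ (V : Type) [Fintype V] (q d m g t K : ℕ) (PF PD : V → Finset V) (rk : V → ℕ),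
    1 ≤ q → 1 ≤ d → 1 ≤ m → 1 ≤ g → 4 * m ≤ 2 ^ g → K = 27 * (q + 1) ^ 2 * d →
    (∀ v, v ∉ PF v) → (∀ v, ∀ u ∈ PD v, rk u < rk v) →
    (∀ v, (PF v).card ≤ d) → (∀ v, (PD v).card ≤ m) →
    4 * (m * 2 ^ (g + 6 * (q + 1) * g + 1) * K) * q ^ t ≤ (q + 1) ^ t →
  ∃ κ : V → Fin K, (∀ v, ∀ u ∈ PF v, κ u ≠ κ v) ∧
    ∀ v, q ^ 3 * K * ((PD v).filter (fun u => κ u = κ v)).card ≤
      (q + 1) ^ 3 * m + q ^ 3 * K * (9 * (q + 1) * g * t)

end Pool.Agent.Helper7.KS3
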