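import Pool.Agent.Helper7.KS3.Goals2

/-!
# Project KS3: the lopsided local lemma
-/

set_option autoImplicit false
open Classical

namespace Pool.Agent.Helper7.KS3

open Pool.Agent.Helper41.Girth4

theorem s_lll : S_LLL := by
  intro Ω J _ _ _ A Nb p d hp0 hd hlop hdeg h4
  let Q : Finset J → ℝ := fun T => Pr (fun ω => ∀ j ∈ T, ¬ A j ω)
  have hQmono : ∀ T T' : Finset J, T ⊆ T' → Q T' ≤ Q T := by
    intro T T' h
    exact Pr_mono fun ω hω j hj => hω j (h hj)
  have hins : ∀ T j, Q (insert j T) = Q T - Pr (fun ω => A j ω ∧ ∀ i ∈ T, ¬ A i ω) := by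
    intro T j
    have h1 := Pr_and_not (fun ω : Ω => ∀ i ∈ T, ¬ A i ω) (A j)
    have h2 : Q (insert j T) = Pr (fun ω => (∀ i ∈ T, ¬ A i ω) ∧ ¬ A j ω) := by
      apply Pr_congr
      intro ω
      simp only [Finset.mem_insert, forall_eq_or_imp]
      tauto
    have h3 : Pr (fun ω => A j ω ∧ ∀ i ∈ T, ¬ A i ω) = Pr (fun ω => (∀ i ∈ T, ¬ A i ω) ∧ A j ω) :=
      Pr_congr fun ω => by tauto
    rw [h2, h1, h3]
  have key : ∀ n : ℕ, ∀ T : Finset J, T.card ≤ n →
      0 < Q T ∧ ∀ j, Pr (fun ω => A j ω ∧ ∀ i ∈ T, ¬ A i ω) ≤ 2 * p * Q T := by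
    intro n
    induction n with
    | zero =>
      intro T hT
      have : T = ∅ := Finset.card_eq_zero.1 (Nat.le_zero.1 hT)
      subst this
      have hQ : Q ∅ = 1 := by
        have : Q ∅ = Pr (fun _ : Ω => True) := Pr_congr fun ω => by simp
        rw [this, Pr_true]
      refine ⟨by rw [hQ]; exact one_pos, fun j => ?_⟩
      have h1 := hlop j ∅ (Finset.disjoint_empty_left _)
      have h2 : Pr (fun ω => ∀ i ∈ (∅ : Finset J), ¬ A i ω) = 1 := hQ
      rw [h2] at h1
      rw [hQ]
      linarith
    | succ n ih =>
      intro T hT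
      have hpos : 0 < Q T := by
        rcases T.eq_empty_or_nonempty with rfl | ⟨j, hj⟩
        · exact (ih ∅ (by simp)).1
        · have hc : (T.erase j).card ≤ n := by
            have := Finset.card_erase_of_mem hj
            omega
          have h1 := ih (T.erase j) hc
          have h2 := hins (T.erase j) j
          rw [Finset.insert_erase hj] at h2
          have h3 := h1.2 j
          have h4' : 4 * p ≤ 1 := by
            have : 4 * p * 1 ≤ 4 * p * d := by
              gcongr
              exact_mod_cast hd
            linarith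
          rw [h2]
          nlinarith [h1.1]
      refine ⟨hpos, fun j => ?_⟩
      -- split
      let T1 := T.filter fun i => i ∈ Nb j
      let T2 := T.filter fun i => i ∉ Nb j
      have hT2 : T2 ⊆ T := Finset.filter_subset _ _
      have hT12 : ∀ i ∈ T, i ∈ T1 ∨ i ∈ T2 := by
        intro i hi
        by_cases h : i ∈ Nb j
        · left; simp [T1, hi, h]
        · right; simp [T2, hi, h]
      have hind : Pr (fun ω => A j ω ∧ ∀ i ∈ T2, ¬ A i ω) ≤ p * Q T2 := by
        apply hlop j T2
        rw [Finset.disjoint_left]
        intro i hi hi'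
        exact (Finset.mem_filter.1 hi).2 hi'
      have hle : Pr (fun ω => A j ω ∧ ∀ i ∈ T, ¬ A i ω) ≤ p * Q T2 := by
        refine le_trans (Pr_mono (B := fun ω => A j ω ∧ ∀ i ∈ T2, ¬ A i ω) ?_) hind
        intro ω hω
        exact ⟨hω.1, fun i hi => hω.2 i (hT2 hi)⟩
      have hc1 : (T1.card : ℝ) ≤ d := by
        have h1 : T1.card ≤ (Nb j).card := by
          apply Finset.card_le_card
          intro i hi
          exact (Finset.mem_filter.1 hi).2
        exact_mod_cast h1.trans (hdeg j)
      -- Q T ≥ Q T2 / 2
      have hhalf : Q T2 ≤ 2 * Q T := by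
        rcases T1.eq_empty_or_nonempty with h1 | ⟨i0, hi0⟩
        · have : T ⊆ T2 := by
            intro i hi
            rcases hT12 i hi with h | h
            · rw [h1] at h; simp at h
            · exact h
          have h2 := hQmono T T2 this
          linarith
        · have hlt : T2.card ≤ n := by
            have h2 : T2.card < T.card := by
              apply Finset.card_lt_card
              refine ⟨hT2, fun h => ?_⟩
              have hi0T : i0 ∈ T := (Finset.mem_filter.1 hi0).1
              have h3 := (Finset.mem_filter.1 (h hi0T)).2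
              exact h3 (Finset.mem_filter.1 hi0).2
            omega
          have hI := ih T2 hlt
          have hsum : Q T2 ≤ Q T + ∑ i ∈ T1, Pr (fun ω => A i ω ∧ ∀ k ∈ T2, ¬ A k ω) := by
            refine le_trans ?_ (add_le_add_right (Pr_exists_le T1 _) _)
            refine le_trans ?_ (Pr_or_le _ _)
            apply Pr_mono
            intro ω hω
            by_cases h : ∃ i ∈ T1, A i ω
            · right
              obtain ⟨i, hi, hA⟩ := h
              exact ⟨i, hi, hA, hω⟩
            · left
              intro i hi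
              rcases hT12 i hi with h' | h'
              · intro hA
                exact h ⟨i, h', hA⟩
              · exact hω i h'
          have hb : ∑ i ∈ T1, Pr (fun ω => A i ω ∧ ∀ k ∈ T2, ¬ A k ω) ≤ T1.card * (2 * p * Q T2) := by
            rw [← nsmul_eq_mul]
            exact Finset.sum_le_card_nsmul _ _ _ fun i _ => hI.2 i
          have hb2 : (T1.card : ℝ) * (2 * p * Q T2) ≤ d * (2 * p * Q T2) := by
            have := hI.1
            gcongr
          have hb3 : (d : ℝ) * (2 * p * Q T2) ≤ (1 / 2) * Q T2 := by
            have := hI.1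
            nlinarith
          linarith
      calc Pr (fun ω => A j ω ∧ ∀ i ∈ T, ¬ A i ω) ≤ p * Q T2 := hle
        _ ≤ p * (2 * Q T) := by gcongr
        _ = 2 * p * Q T := by ring
  have hfin := (key _ (Finset.univ : Finset J) le_rfl).1
  by_contra hcon
  push Not at hcon
  have : Q Finset.univ = Pr (fun _ : Ω => False) := by
    apply Pr_congr
    intro ω
    obtain ⟨j, hj⟩ := hcon ω
    constructor
    · intro h
      exact h j (Finset.mem_univ j) hj
    · intro h
      exact h.elim
  rw [this, Pr_false] at hfin
  exact lt_irrefl _ hfin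

end Pool.Agent.Helper7.KS3
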